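import Mathlib
import Pool.Agent.H1.CdomA

namespace Pool.Agent.Results.MP_af1bb3_co.Sharp
open Finset Filter Topology

/-- every vertex outside `S` has a neighbour in `S` -/
def IsDom {V : Type} (G : SimpleGraph V) (S : Finset V) : Prop := ∀ v, v ∉ S → ∃ u ∈ S, G.Adj v u

/-- domination number -/
noncomputable def gamma {V : Type} (G : SimpleGraph V) : ℕ :=
  sInf {m | ∃ S : Finset V, S.card = m ∧ IsDom G S}

/-- connected domination number -/
noncomputable def gammaC {V : Type} (G : SimpleGraph V) : ℕ :=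
  sInf {m | ∃ S : Finset V, S.card = m ∧ IsDom G S ∧ (G.induce (S : Set V)).Connected}

/-- the maximum of `γ_c - γ` over connected graphs on `n` vertices with minimum degree `≥ k` -/
noncomputable def M (n k : ℕ) : ℕ :=
  sSup {m | ∃ (V : Type) (_ : Fintype V) (G : SimpleGraph V), Fintype.card V = n ∧ G.Connected ∧
    (∀ v, k ≤ (G.neighborSet v).ncard) ∧ m = gammaC G - gamma G}

open Pool.Agent.H1.Cdom

lemma univ_mem {V : Type} [Fintype V] (G : SimpleGraph V) (h : G.Connected) :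
    Fintype.card V ∈
      {m | ∃ S : Finset V, S.card = m ∧ IsDom G S ∧ (G.induce (S : Set V)).Connected} := by
  refine ⟨Finset.univ, rfl, fun v hv => absurd (Finset.mem_univ v) hv, ?_⟩
  rw [Finset.coe_univ]
  exact (SimpleGraph.induceUnivIso G).connected_iff.2 h

lemma le_M {V : Type} [Fintype V] (G : SimpleGraph V) (h : G.Connected) (k : ℕ)
    (hk : ∀ v, k ≤ (G.neighborSet v).ncard) : gammaC G - gamma G ≤ M (Fintype.card V) k := by
  apply le_csSup
  · refine ⟨Fintype.card V, ?_⟩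
    rintro m ⟨V', _, G', h1, h2, -, rfl⟩
    have : gammaC G' ≤ Fintype.card V' := Nat.sInf_le (univ_mem G' h2)
    omega
  · exact ⟨V, inferInstance, G, rfl, h, hk, rfl⟩

lemma main (q t k n : ℕ) (ht : 2 ≤ t) (s : ℕ)
    (hs : (((q:ℝ) + 4) * t * (((q:ℝ) + 3) / (q + 2)) ^ t + 2) * t ≤ s)
    (hk : 2 ^ ((2 * q + 12) * s) ≤ k + 1) : n / ((q + 5) * k) * t ≤ M n k + 1 := by
  classical
  obtain ⟨F, hF1, hF2, hF3⟩ := family q t (by omega)
  rcases Nat.eq_zero_or_pos (n / ((q + 5) * k)) with h0 | hr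
  · rw [h0]; omega
  obtain ⟨r, hrd⟩ : ∃ r, r = n / ((q + 5) * k) := ⟨_, rfl⟩
  rw [← hrd] at hr ⊢
  have hrn : r * ((q + 5) * k) ≤ n := hrd ▸ Nat.div_mul_le_self _ _
  have hs1 : F.card * t + t ≤ s := by
    have : ((F.card * t + t : ℕ) : ℝ) ≤ s := by
      push_cast
      have := mul_le_mul_of_nonneg_right hF2 (show (0:ℝ) ≤ t by positivity)
      nlinarith
    exact_mod_cast this
  have hts : t ≤ s := by omega
  obtain ⟨Z, hZ⟩ : ∃ Z, Z = (q + 4) * t * s := ⟨_, rfl⟩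
  have hZ0 : 0 < Z := by rw [hZ]; exact Nat.mul_pos (Nat.mul_pos (by omega) (by omega)) (by omega)
  obtain ⟨w, hw⟩ : ∃ w, w = k / Z + 1 := ⟨_, rfl⟩
  have hw1 : k ≤ Z * w := by rw [hw]; exact (Nat.lt_mul_div_succ k hZ0).le
  have hw2 : Z * w ≤ k + Z := by
    rw [hw, mul_add, mul_one]; exact Nat.add_le_add_right (Nat.mul_div_le k Z) Z
  let X := {A // A ∈ F} × Fin t
  let Y := {B // B ∈ (Finset.univ : Finset (Fin ((q + 4) * s))).powersetCard s} × Fin (s + 1)
  have cX : Fintype.card X = F.card * t := by simp [X]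
  have cY : Fintype.card Y ≤ 2 ^ ((q + 5) * s) := by
    simp only [Y, Fintype.card_prod, Fintype.card_coe, Finset.card_powersetCard, Finset.card_univ,
      Fintype.card_fin]
    have a1 : ((q + 4) * s).choose s ≤ 2 ^ ((q + 4) * s) := Nat.choose_le_two_pow _ _
    have a2 : s + 1 ≤ 2 ^ s := Nat.lt_two_pow_self
    calc _ ≤ 2 ^ ((q + 4) * s) * 2 ^ s := Nat.mul_le_mul a1 a2
      _ = _ := by rw [← pow_add]; congr 1; ring
  have hsize : (q + 4) * Z + F.card * t + F.card * t * Fintype.card Y + 1 ≤ k := by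
    obtain ⟨E, hE⟩ : ∃ E, E = 2 ^ ((2 * q + 10) * s) := ⟨_, rfl⟩
    have b0 : 4 * E ≤ 2 ^ ((2 * q + 12) * s) := by
      rw [hE, show 4 = 2 ^ 2 by norm_num, ← pow_add]
      apply Nat.pow_le_pow_right (by norm_num); nlinarith
    have b1 : (q + 4) * s < 2 ^ ((q + 4) * s) := Nat.lt_two_pow_self
    have b2 : (q + 4) * Z ≤ E := by
      calc (q + 4) * Z ≤ ((q + 4) * s) * ((q + 4) * s) := by
            rw [hZ]
            calc (q + 4) * ((q + 4) * t * s) = ((q + 4) * t) * ((q + 4) * s) := by ring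
              _ ≤ _ := Nat.mul_le_mul_right _ (Nat.mul_le_mul_left _ hts)
        _ ≤ 2 ^ ((q + 4) * s) * 2 ^ ((q + 4) * s) := Nat.mul_le_mul b1.le b1.le
        _ ≤ E := by
            rw [hE, ← pow_add]; apply Nat.pow_le_pow_right (by norm_num); nlinarith
    have b3 : s < 2 ^ s := Nat.lt_two_pow_self
    have b4 : 2 ^ s ≤ E := by rw [hE]; apply Nat.pow_le_pow_right (by norm_num); nlinarith
    have b5 : F.card * t * Fintype.card Y ≤ E := by
      calc _ ≤ 2 ^ s * 2 ^ ((q + 5) * s) := Nat.mul_le_mul (by omega) cY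
        _ ≤ E := by
            rw [hE, ← pow_add]; apply Nat.pow_le_pow_right (by norm_num); nlinarith
    omega
  obtain ⟨g, hg⟩ : ∃ g, g = (q + 4) * (Z * w) + F.card * t + F.card * t * Fintype.card Y := ⟨_, rfl⟩
  have hg1 : g ≤ (q + 5) * k := by
    have := Nat.mul_le_mul_left (q + 4) hw2
    rw [hg]; nlinarith
  have hg2 : r * g ≤ n := (Nat.mul_le_mul_left r hg1).trans hrn
  let A : X → Finset (Fin ((q + 4) * t)) := fun x => x.1.1
  let B : Y → Finset (Fin ((q + 4) * s)) := fun y => y.1.1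
  let G := GG (I := Fin r) (W := Fin w) (P := Fin (n - r * g)) A B
  have hA : ∀ x, (A x).card = t := fun x => hF1 _ x.1.2
  have hB : ∀ y, (B y).card = s := fun y => (Finset.mem_powersetCard.1 y.1.2).2
  have hcard : Fintype.card (VV (Fin r) (Fin ((q + 4) * t)) (Fin ((q + 4) * s)) (Fin w)
      (Fin (n - r * g)) X Y) = n := by
    simp only [Fintype.card_sum, Fintype.card_prod, Fintype.card_fin, cX]
    have : r * ((q + 4) * t * ((q + 4) * s * w)) + r * (F.card * t) +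
        r * (F.card * t * Fintype.card Y) = r * g := by rw [hg, hZ]; ring
    omega
  have c0 : Fin r × Fin ((q + 4) * t) × Fin ((q + 4) * s) × Fin w :=
    (⟨0, hr⟩, ⟨0, Nat.mul_pos (by omega) (by omega)⟩, ⟨0, Nat.mul_pos (by omega) (by omega)⟩,
      ⟨0, by rw [hw]; exact Nat.succ_pos _⟩)
  have hconn : G.Connected := conn A B c0 (fun x => Finset.card_pos.1 (by rw [hA]; omega))
  have hdeg : ∀ v, k ≤ (G.neighborSet v).ncard := by
    apply deg A B k
    · simp only [Fintype.card_prod, Fintype.card_fin]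
      have e : (q + 4) * t * ((q + 4) * s * w) = (q + 4) * (Z * w) := by rw [hZ]; ring
      rw [e]
      have a1 : 2 * k ≤ (q + 4) * (Z * w) := Nat.mul_le_mul (by omega) hw1
      have a2 : (q + 4) * (Z * w) ≤ r * ((q + 4) * (Z * w)) := Nat.le_mul_of_pos_left _ hr
      omega
    · intro x
      rw [hA, Fintype.card_fin, Fintype.card_fin]
      have e : t * ((q + 4) * s * w) = Z * w := by rw [hZ]; ring
      omega
    · intro y
      rw [hB, Fintype.card_fin, Fintype.card_fin]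
      have e : (q + 4) * t * (s * w) = Z * w := by rw [hZ]; ring
      omega
  have h1 := le_M G hconn k hdeg
  rw [hcard] at h1
  have h2 : gamma G ≤ r * (F.card * t) + 1 := by
    obtain ⟨S, hS1, hS2⟩ := dom_small (P := Fin (n - r * g)) A B c0
    rw [cX, Fintype.card_fin] at hS1
    have : gamma G ≤ S.card := Nat.sInf_le ⟨S, rfl, hS2⟩
    exact this.trans hS1
  have h3 : r * (F.card * t + t) ≤ gammaC G := by
    obtain ⟨S, hS1, hS2, hS3⟩ := Nat.sInf_mem ⟨_, univ_mem G hconn⟩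
    have := cdom_large A B t s ht (by rw [cX]; exact hs1) (by
      intro J hJ
      obtain ⟨a, ha, hd⟩ := hF3 J hJ
      refine le_trans ?_ (Finset.card_le_card_of_injOn (s := (Finset.univ : Finset (Fin t)))
        (fun i => ((⟨a, ha⟩, i) : X)) (fun i _ => Finset.mem_coe.2
          (Finset.mem_filter.2 ⟨Finset.mem_univ _, hd⟩)) (fun i _ j _ h => congrArg Prod.snd h))
      simp) (by
      intro J hJ
      obtain ⟨b, hb1, hb2⟩ := Finset.exists_subset_card_eq (s := Jᶜ) (n := s) (by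
        rw [Finset.card_compl, Fintype.card_fin]
        have : 2 * s ≤ (q + 4) * s := Nat.mul_le_mul_right _ (by omega)
        omega)
      refine lt_of_lt_of_le ?_ (Finset.card_le_card_of_injOn
        (s := (Finset.univ : Finset (Fin (s + 1))))
        (fun i => ((⟨b, Finset.mem_powersetCard.2 ⟨Finset.subset_univ _, hb2⟩⟩, i) : Y))
        (fun i _ => Finset.mem_coe.2 (Finset.mem_filter.2 ⟨Finset.mem_univ _,
          Finset.subset_compl_iff_disjoint_right.1 hb1⟩)) (fun i _ j _ h => congrArg Prod.snd h))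
      simp) S hS2 hS3
    rw [cX, Fintype.card_fin, hS1] at this
    exact this
  rw [mul_add] at h3
  omega

lemma ev (q : ℕ) : ∃ t0 : ℕ, ∀ t ≥ t0, ((2 * q + 12 : ℝ) * (q + 7)) * t ^ 2 *
    (((q:ℝ) + 3) / (q + 2)) ^ t ≤ Real.exp ((t:ℝ) / (q + 1)) := by
  set ρ : ℝ := ((q:ℝ) + 3) / (q + 2) with hρ
  set b : ℝ := Real.exp (1 / ((q:ℝ) + 1)) with hb
  have hb0 : 0 < b := Real.exp_pos _
  have hρ0 : 0 < ρ := by positivity
  have h1 : ρ < b := by
    have a1 := Real.add_one_le_exp (1 / ((q:ℝ) + 1))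
    have a2 : ρ < 1 / ((q:ℝ) + 1) + 1 := by
      rw [hρ, div_add_one (by positivity), div_lt_div_iff₀ (by positivity) (by positivity)]
      nlinarith
    linarith
  have h2 := tendsto_pow_const_mul_const_pow_of_abs_lt_one 2 (r := ρ / b)
    (by rw [abs_of_pos (by positivity), div_lt_one hb0]; exact h1)
  have hc : (0:ℝ) < (2 * q + 12 : ℝ) * (q + 7) := by positivity
  obtain ⟨t0, ht0⟩ := Filter.eventually_atTop.1 (h2.eventually (gt_mem_nhds (inv_pos.2 hc)))
  refine ⟨t0, fun t ht => ?_⟩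
  have h3 := ht0 t ht
  have e : Real.exp ((t:ℝ) / (q + 1)) = b ^ t := by
    rw [hb, ← Real.exp_nat_mul]; congr 1; ring
  rw [e]
  rw [div_pow, ← mul_div_assoc, div_lt_iff₀ (by positivity), inv_mul_eq_div, lt_div_iff₀ hc] at h3
  nlinarith

lemma part1 (q : ℕ) : ∃ k0 : ℕ, ∀ k ≥ k0, ∀ n ≥ (q + 5) * (q + 6) * k,
    (q:ℝ) / (q + 6) * ((n:ℝ) / (k + 1)) * Real.log (Real.log (k + 1)) ≤ M n k := by
  obtain ⟨t0, ht0⟩ := ev q
  have hl : Tendsto (fun k : ℕ => Real.log (Real.log ((k:ℝ) + 1))) atTop atTop :=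
    Real.tendsto_log_atTop.comp (Real.tendsto_log_atTop.comp
      (tendsto_atTop_add_const_right _ _ tendsto_natCast_atTop_atTop))
  obtain ⟨k0, hk0⟩ := Filter.eventually_atTop.1 (hl.eventually_ge_atTop ((t0:ℝ) + 2))
  refine ⟨max k0 1, fun k hk n hn => ?_⟩
  have hk1 : 1 ≤ k := le_trans (le_max_right _ _) hk
  have hkr : (1:ℝ) ≤ k := by exact_mod_cast hk1
  have hl0 := hk0 k (le_trans (le_max_left _ _) hk)
  set l := Real.log (Real.log ((k:ℝ) + 1)) with hldef
  have ht00 : (0:ℝ) ≤ t0 := by positivity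
  have hq0 : (0:ℝ) ≤ q := by positivity
  obtain ⟨t, ht⟩ : ∃ t, t = ⌊((q:ℝ) + 1) * l⌋₊ := ⟨_, rfl⟩
  have ht1 : (t:ℝ) ≤ (q + 1) * l := ht ▸ Nat.floor_le (by nlinarith)
  have ht2 : ((q:ℝ) + 1) * l < t + 1 := ht ▸ Nat.lt_floor_add_one _
  have ht3 : t0 + 2 ≤ t := by
    rw [ht]; apply Nat.le_floor; push_cast; nlinarith
  have htr : (2:ℝ) ≤ t := by exact_mod_cast (show 2 ≤ t by omega)
  set ρ : ℝ := (((q:ℝ) + 3) / (q + 2)) ^ t with hρ
  have hρ1 : 1 ≤ ρ := one_le_pow₀ (by rw [le_div_iff₀ (by positivity)]; linarith)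
  obtain ⟨s, hs⟩ : ∃ s, s = ⌈(((q:ℝ) + 4) * t * ρ + 2) * t⌉₊ := ⟨_, rfl⟩
  have hs1 : (((q:ℝ) + 4) * t * ρ + 2) * t ≤ s := hs ▸ Nat.le_ceil _
  have hs2 : (s:ℝ) < (((q:ℝ) + 4) * t * ρ + 2) * t + 1 := hs ▸ Nat.ceil_lt_add_one (by positivity)
  have hs3 : (s:ℝ) ≤ (q + 7) * t ^ 2 * ρ := by
    have a1 : (t:ℝ) ^ 2 ≤ t ^ 2 * ρ := le_mul_of_one_le_right (by positivity) hρ1
    nlinarith
  have hk2 : 2 ^ ((2 * q + 12) * s) ≤ k + 1 := by
    have a1 := ht0 t (by omega)
    have a2 : Real.exp ((t:ℝ) / (q + 1)) ≤ Real.log (k + 1) := by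
      have hlog : 0 < Real.log ((k:ℝ) + 1) := Real.log_pos (by linarith)
      rw [← Real.exp_log hlog]
      apply Real.exp_le_exp.2
      rw [div_le_iff₀ (by positivity)]; linarith
    have a3 : (((2 * q + 12) * s : ℕ) : ℝ) ≤ Real.log (k + 1) := by
      push_cast
      have := mul_le_mul_of_nonneg_left hs3 (show (0:ℝ) ≤ 2 * q + 12 by positivity)
      nlinarith
    have a4 : (2:ℝ) ^ ((2 * q + 12) * s) ≤ k + 1 := by
      calc (2:ℝ) ^ ((2 * q + 12) * s) ≤ Real.exp 1 ^ ((2 * q + 12) * s) :=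
            pow_le_pow_left₀ (by norm_num) (by linarith [Real.add_one_le_exp 1]) _
        _ = Real.exp (((2 * q + 12) * s : ℕ) : ℝ) := by rw [← Real.exp_nat_mul, mul_one]
        _ ≤ Real.exp (Real.log (k + 1)) := Real.exp_le_exp.2 a3
        _ = _ := Real.exp_log (by linarith)
    exact_mod_cast a4
  have hm := main q t k n (by omega) s hs1 hk2
  obtain ⟨r, hr⟩ : ∃ r, r = n / ((q + 5) * k) := ⟨_, rfl⟩
  rw [← hr] at hm
  have hr1 : n < (q + 5) * k * (r + 1) := hr ▸ Nat.lt_mul_div_succ n (by positivity)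
  have hr2 : q + 6 ≤ r := by
    rw [hr, Nat.le_div_iff_mul_le (by positivity)]; nlinarith
  have hmr : (r:ℝ) * t ≤ M n k + 1 := by exact_mod_cast hm
  have hr1r : (n:ℝ) < (q + 5) * k * (r + 1) := by exact_mod_cast hr1
  have hr2r : (q:ℝ) + 6 ≤ r := by exact_mod_cast hr2
  have b1 : (n:ℝ) / (k + 1) ≤ (q + 6) * r := by
    rw [div_le_iff₀ (by positivity)]
    have c1 : ((q:ℝ) + 5) * (r + 1) ≤ (q + 6) * r := by nlinarith
    have c2 := mul_le_mul_of_nonneg_right c1 (show (0:ℝ) ≤ k by positivity)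
    have c3 : (0:ℝ) ≤ (q + 6) * r := by positivity
    nlinarith
  have b2 : (q:ℝ) / (q + 6) * ((n:ℝ) / (k + 1)) ≤ q * r := by
    calc (q:ℝ) / (q + 6) * ((n:ℝ) / (k + 1)) ≤ (q:ℝ) / (q + 6) * ((q + 6) * r) :=
          mul_le_mul_of_nonneg_left b1 (by positivity)
      _ = q * r := by field_simp
  have b3 := mul_le_mul_of_nonneg_right b2 (show 0 ≤ l by linarith)
  have b4 : (q:ℝ) * l ≤ t - 1 := by nlinarith
  have b5 := mul_le_mul_of_nonneg_left b4 (show (0:ℝ) ≤ r by positivity)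
  nlinarith

theorem result :
    (∀ ε : ℝ, 0 < ε → ∃ C k0 : ℕ, ∀ k ≥ k0, ∀ n ≥ C * k,
      (1 - ε) * ((n:ℝ) / (k + 1)) * Real.log (Real.log (k + 1)) ≤ M n k) ∧
    ¬ ∃ C : ℝ, ∀ k n : ℕ, 1 ≤ k → k + 1 ≤ n → (M n k : ℝ) ≤ C * ((n:ℝ) / (k + 1)) := by
  have hl : Tendsto (fun k : ℕ => Real.log (Real.log ((k:ℝ) + 1))) atTop atTop :=
    Real.tendsto_log_atTop.comp (Real.tendsto_log_atTop.comp
      (tendsto_atTop_add_const_right _ _ tendsto_natCast_atTop_atTop))
  constructor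
  · intro ε hε
    obtain ⟨q, hq⟩ := exists_nat_gt (6 / ε)
    obtain ⟨k0, hk0⟩ := part1 q
    obtain ⟨k1, hk1⟩ := Filter.eventually_atTop.1 (hl.eventually_ge_atTop 0)
    refine ⟨(q + 5) * (q + 6), max k0 k1, fun k hk n hn => ?_⟩
    refine le_trans ?_ (hk0 k (le_trans (le_max_left _ _) hk) n hn)
    apply mul_le_mul_of_nonneg_right _ (hk1 k (le_trans (le_max_right _ _) hk))
    apply mul_le_mul_of_nonneg_right _ (by positivity)
    rw [le_div_iff₀ (by positivity)]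
    rw [div_lt_iff₀ hε] at hq
    nlinarith
  · rintro ⟨C, hC⟩
    obtain ⟨k0, hk0⟩ := part1 6
    obtain ⟨k1, hk1⟩ := Filter.eventually_atTop.1 (hl.eventually_gt_atTop (2 * C))
    obtain ⟨k, h0, h1, h2⟩ : ∃ k, k0 ≤ k ∧ k1 ≤ k ∧ 1 ≤ k := ⟨k0 + k1 + 1, by omega, by omega, by omega⟩
    have a1 := hk0 k h0 _ le_rfl
    have a2 := hC k ((6 + 5) * (6 + 6) * k) h2 (by omega)
    have a3 := hk1 k h1
    have a4 : (0:ℝ) < (((6 + 5) * (6 + 6) * k : ℕ) : ℝ) / (k + 1) := by positivity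
    have a5 := mul_lt_mul_of_pos_right a3 a4
    norm_num at a1 a2 a4 a5
    linarith

end Pool.Agent.Results.MP_af1bb3_co.Sharp
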